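import Pool.Agent.W420.NS.Stm

/-!
# Project NS: restrictions of colourings (VAL) and reachability (REA)
-/

set_option autoImplicit false

namespace Pool.Agent.W366.NS

open Pool.Agent.W420.NS

theorem isT_neg {c : ℕ} (h : isT c = true) : isT (neg c) = true := by
  unfold neg
  rw [h]
  show isT ((4 - c) % 4) = true
  unfold isT
  rw [Nat.blt_eq]
  exact Nat.mod_lt _ (by norm_num)

theorem mem_newE {A B : Pole} {s : ℕ} {e : ((A.V ⊕ B.V) × Fin 3) × ((A.V ⊕ B.V) × Fin 3)}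
    (h : e ∈ newE A B s) : ∃ p ∈ A.D, ∃ q ∈ B.D, e = (lmap Sum.inl p, lmap Sum.inr q) := by
  unfold newE at h
  have h1 := (List.of_mem_zip h).1
  have h2 := (List.of_mem_zip h).2
  rw [List.mem_map] at h1 h2
  obtain ⟨p, hp, hp'⟩ := h1
  obtain ⟨q, hq, hq'⟩ := h2
  exact ⟨p, List.mem_of_mem_take hp, q, List.mem_of_mem_take hq, Prod.ext hp'.symm hq'.symm⟩

theorem mem_E {A B : Pole} {s : ℕ} {e : ((A.V ⊕ B.V) × Fin 3) × ((A.V ⊕ B.V) × Fin 3)} :
    e ∈ (A.join B s).E ↔ (∃ e' ∈ A.E, e = (lmap Sum.inl e'.1, lmap Sum.inl e'.2)) ∨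
      (∃ e' ∈ B.E, e = (lmap Sum.inr e'.1, lmap Sum.inr e'.2)) ∨ e ∈ newE A B s := by
  have h0 : e ∈ (A.join B s).E ↔ e ∈ (A.E.map fun e => ((lmap Sum.inl e.1, lmap Sum.inl e.2) :
      ((A.V ⊕ B.V) × Fin 3) × ((A.V ⊕ B.V) × Fin 3))) ++
    ((B.E.map fun e => ((lmap Sum.inr e.1, lmap Sum.inr e.2) :
      ((A.V ⊕ B.V) × Fin 3) × ((A.V ⊕ B.V) × Fin 3))) ++ newE A B s) := Iff.rfl
  rw [h0, List.mem_append, List.mem_append, List.mem_map, List.mem_map]
  constructor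
  · rintro (⟨e', h, rfl⟩ | ⟨e', h, rfl⟩ | h)
    · exact Or.inl ⟨e', h, rfl⟩
    · exact Or.inr (Or.inl ⟨e', h, rfl⟩)
    · exact Or.inr (Or.inr h)
  · rintro (⟨e', h, rfl⟩ | ⟨e', h, rfl⟩ | h)
    · exact Or.inl ⟨e', h, rfl⟩
    · exact Or.inr (Or.inl ⟨e', h, rfl⟩)
    · exact Or.inr (Or.inr h)

theorem mem_D {A B : Pole} {s : ℕ} {d : (A.V ⊕ B.V) × Fin 3} (h : d ∈ (A.join B s).D) :
    (∃ p ∈ A.D, d = lmap Sum.inl p) ∨ ∃ q ∈ B.D, d = lmap Sum.inr q := by
  have h0 : d ∈ (((A.D.drop s).map (lmap Sum.inl) ++ (B.D.drop s).map (lmap Sum.inr)) :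
    List ((A.V ⊕ B.V) × Fin 3)) := h
  rw [List.mem_append, List.mem_map, List.mem_map] at h0
  rcases h0 with ⟨p, hp, rfl⟩ | ⟨q, hq, rfl⟩
  · exact Or.inl ⟨p, List.mem_of_mem_drop hp, rfl⟩
  · exact Or.inr ⟨q, List.mem_of_mem_drop hq, rfl⟩

theorem inv {P : Pole} {c : P.V → Fin 3 → ℕ} {W : P.V → Prop}
    (h : ∀ e ∈ P.E, isT (c e.1.1 e.1.2) = true → (W e.1.1 ↔ W e.2.1)) {x y : P.V}
    (hxy : Conn P c x y) : W x ↔ W y := by
  induction hxy with
  | rel x y h1 =>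
    obtain ⟨e, he, rfl, rfl, ht⟩ := h1
    exact h e he ht
  | refl x => exact Iff.rfl
  | symm x y _ ih => exact ih.symm
  | trans x y z _ _ ih1 ih2 => exact ih1.trans ih2

theorem val : S_VAL := by
  intro A B s c hc
  obtain ⟨h1, h2⟩ := hc
  refine ⟨⟨fun x => h1 (Sum.inl x), fun e he => ?_⟩, ⟨fun x => h1 (Sum.inr x), fun e he => ?_⟩, ?_⟩
  · exact h2 (lmap Sum.inl e.1, lmap Sum.inl e.2) (mem_E.2 (Or.inl ⟨e, he, rfl⟩))
  · exact h2 (lmap Sum.inr e.1, lmap Sum.inr e.2) (mem_E.2 (Or.inr (Or.inl ⟨e, he, rfl⟩)))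
  · rintro a b ⟨la, ca, -⟩ ⟨lb, cb, -⟩ x hx
    obtain ⟨i, hi, rfl⟩ := List.mem_iff_getElem.1 hx
    rw [List.length_zip, List.length_take, List.length_take] at hi
    have hia : i < a.length := by omega
    have hib : i < b.length := by omega
    have his : i < s := by omega
    rw [List.getElem_zip]
    simp only [List.getElem_take]
    have hiA : i < A.D.length := by omega
    have hiB : i < B.D.length := by omega
    have k1 : (A.D[i], a[i]) ∈ A.D.zip a := by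
      refine List.mem_iff_getElem.2 ⟨i, by rw [List.length_zip]; omega, ?_⟩
      rw [List.getElem_zip]
    have k2 : (B.D[i], b[i]) ∈ B.D.zip b := by
      refine List.mem_iff_getElem.2 ⟨i, by rw [List.length_zip]; omega, ?_⟩
      rw [List.getElem_zip]
    have k3 := ca _ k1
    have k4 := cb _ k2
    have k5 : (lmap Sum.inl A.D[i], lmap Sum.inr B.D[i]) ∈ newE A B s := by
      unfold newE
      refine List.mem_iff_getElem.2 ⟨i, ?_, ?_⟩
      · rw [List.length_zip, List.length_map, List.length_map, List.length_take, List.length_take]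
        omega
      · rw [List.getElem_zip]
        simp only [List.getElem_map, List.getElem_take]
    have k6 := (h2 _ (mem_E.2 (Or.inr (Or.inr k5)))).1
    change c (Sum.inr (B.D[i]).1) (B.D[i]).2 = neg (c (Sum.inl (A.D[i]).1) (A.D[i]).2) at k6
    change c (Sum.inl (A.D[i]).1) (A.D[i]).2 = (a[i]).1 at k3
    change c (Sum.inr (B.D[i]).1) (B.D[i]).2 = (b[i]).1 at k4
    rw [k3, k4] at k6
    exact k6

theorem rea : S_REA := by
  intro A B s c hc
  have hT : ∀ e ∈ newE A B s, isT (c e.1.1 e.1.2) = true → isT (c e.2.1 e.2.2) = true := by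
    intro e he h
    rw [(hc.2 e (mem_E.2 (Or.inr (Or.inr he)))).1]
    exact isT_neg h
  constructor
  · intro h x
    by_contra hno
    have key : ∀ e ∈ (A.join B s).E, isT (c e.1.1 e.1.2) = true →
        ((∃ w, e.1.1 = Sum.inl w ∧ Conn A (fun x => c (Sum.inl x)) x w) ↔
          ∃ w, e.2.1 = Sum.inl w ∧ Conn A (fun x => c (Sum.inl x)) x w) := by
      intro e he ht
      rcases mem_E.1 he with ⟨e', he', rfl⟩ | ⟨e', he', rfl⟩ | he'
      · have hr : Conn A (fun x => c (Sum.inl x)) e'.1.1 e'.2.1 :=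
          Relation.EqvGen.rel _ _ ⟨e', he', rfl, rfl, ht⟩
        constructor
        · rintro ⟨w, hw, hw'⟩
          obtain rfl : e'.1.1 = w := Sum.inl.inj hw
          exact ⟨e'.2.1, rfl, Relation.EqvGen.trans _ _ _ hw' hr⟩
        · rintro ⟨w, hw, hw'⟩
          obtain rfl : e'.2.1 = w := Sum.inl.inj hw
          exact ⟨e'.1.1, rfl, Relation.EqvGen.trans _ _ _ hw' (Relation.EqvGen.symm _ _ hr)⟩
      · constructor
        · rintro ⟨w, hw, _⟩
          exact absurd (show Sum.inr e'.1.1 = (Sum.inl w : A.V ⊕ B.V) from hw) (by simp)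
        · rintro ⟨w, hw, _⟩
          exact absurd (show Sum.inr e'.2.1 = (Sum.inl w : A.V ⊕ B.V) from hw) (by simp)
      · obtain ⟨p, hp, q, hq, rfl⟩ := mem_newE he'
        constructor
        · rintro ⟨w, hw, hw'⟩
          obtain rfl : p.1 = w := Sum.inl.inj hw
          exact absurd ⟨p, hp, ht, hw'⟩ hno
        · rintro ⟨w, hw, _⟩
          exact absurd (show Sum.inr q.1 = (Sum.inl w : A.V ⊕ B.V) from hw) (by simp)
    have hx : ∃ w, (Sum.inl x : A.V ⊕ B.V) = Sum.inl w ∧ Conn A (fun x => c (Sum.inl x)) x w :=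
      ⟨x, rfl, Relation.EqvGen.refl _⟩
    rcases h x with ⟨d, hd, hdT, hdC⟩ | ⟨y, hy⟩
    · obtain ⟨w, hw, hw'⟩ := (inv (P := A.join B s) (W := fun z => ∃ w, z = Sum.inl w ∧
        Conn A (fun x => c (Sum.inl x)) x w) key hdC).1 hx
      rcases mem_D hd with ⟨p, hp, rfl⟩ | ⟨q, hq, rfl⟩
      · obtain rfl : p.1 = w := Sum.inl.inj hw
        exact hno ⟨p, hp, hdT, hw'⟩
      · exact absurd (show Sum.inr q.1 = (Sum.inl w : A.V ⊕ B.V) from hw) (by simp)
    · obtain ⟨w, hw, _⟩ := (inv (P := A.join B s) (W := fun z => ∃ w, z = Sum.inl w ∧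
        Conn A (fun x => c (Sum.inl x)) x w) key hy).1 hx
      exact absurd (show Sum.inr y = (Sum.inl w : A.V ⊕ B.V) from hw) (by simp)
  · intro h x
    by_contra hno
    have key : ∀ e ∈ (A.join B s).E, isT (c e.1.1 e.1.2) = true →
        ((∃ w, e.1.1 = Sum.inr w ∧ Conn B (fun x => c (Sum.inr x)) x w) ↔
          ∃ w, e.2.1 = Sum.inr w ∧ Conn B (fun x => c (Sum.inr x)) x w) := by
      intro e he ht
      rcases mem_E.1 he with ⟨e', he', rfl⟩ | ⟨e', he', rfl⟩ | he'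
      · constructor
        · rintro ⟨w, hw, _⟩
          exact absurd (show Sum.inl e'.1.1 = (Sum.inr w : A.V ⊕ B.V) from hw) (by simp)
        · rintro ⟨w, hw, _⟩
          exact absurd (show Sum.inl e'.2.1 = (Sum.inr w : A.V ⊕ B.V) from hw) (by simp)
      · have hr : Conn B (fun x => c (Sum.inr x)) e'.1.1 e'.2.1 :=
          Relation.EqvGen.rel _ _ ⟨e', he', rfl, rfl, ht⟩
        constructor
        · rintro ⟨w, hw, hw'⟩
          obtain rfl : e'.1.1 = w := Sum.inr.inj hw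
          exact ⟨e'.2.1, rfl, Relation.EqvGen.trans _ _ _ hw' hr⟩
        · rintro ⟨w, hw, hw'⟩
          obtain rfl : e'.2.1 = w := Sum.inr.inj hw
          exact ⟨e'.1.1, rfl, Relation.EqvGen.trans _ _ _ hw' (Relation.EqvGen.symm _ _ hr)⟩
      · have ht2 := hT e he' ht
        obtain ⟨p, hp, q, hq, rfl⟩ := mem_newE he'
        constructor
        · rintro ⟨w, hw, _⟩
          exact absurd (show Sum.inl p.1 = (Sum.inr w : A.V ⊕ B.V) from hw) (by simp)
        · rintro ⟨w, hw, hw'⟩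
          obtain rfl : q.1 = w := Sum.inr.inj hw
          exact absurd ⟨q, hq, ht2, hw'⟩ hno
    have hx : ∃ w, (Sum.inr x : A.V ⊕ B.V) = Sum.inr w ∧ Conn B (fun x => c (Sum.inr x)) x w :=
      ⟨x, rfl, Relation.EqvGen.refl _⟩
    rcases h x with ⟨d, hd, hdT, hdC⟩ | ⟨y, hy⟩
    · obtain ⟨w, hw, hw'⟩ := (inv (P := A.join B s) (W := fun z => ∃ w, z = Sum.inr w ∧
        Conn B (fun x => c (Sum.inr x)) x w) key hdC).1 hx
      rcases mem_D hd with ⟨p, hp, rfl⟩ | ⟨q, hq, rfl⟩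
      · exact absurd (show Sum.inl p.1 = (Sum.inr w : A.V ⊕ B.V) from hw) (by simp)
      · obtain rfl : q.1 = w := Sum.inr.inj hw
        exact hno ⟨q, hq, hdT, hw'⟩
    · obtain ⟨w, hw, _⟩ := (inv (P := A.join B s) (W := fun z => ∃ w, z = Sum.inr w ∧
        Conn B (fun x => c (Sum.inr x)) x w) key hy).1 hx
      exact absurd (show Sum.inl y = (Sum.inr w : A.V ⊕ B.V) from hw) (by simp)

end Pool.Agent.W366.NS
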